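import Mathlib
import Pool.Agent.W845.CP.Base2

set_option autoImplicit false
set_option linter.style.haveILetI false
set_option linter.unusedSectionVars false
open scoped BigOperators

/-!
Project CP, part HLOW: numerical facts on the hub sequence.
-/

namespace Pool.Agent.W11.CP

open Pool.Agent.W845.CP

/-- The sequence used in the subharmonic function for the hub. -/
noncomputable def gm (kap : ℝ) (D : ℕ → ℝ) (m k : ℕ) : ℝ :=
  (1 + kap * ∑ j ∈ Finset.Ioc k m, D j) / (1 + kap * ∑ j ∈ Finset.Ioc 0 m, D j)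

lemma fin_bound (kap Z T m D5 lam sg g4 eta : ℝ) (hT : 0 < T) (hm : 0 < m) (hl : 0 < lam)
    (hs : 0 < sg) (hkap : kap = lam ^ 2 * sg / (20 * m)) (hD5 : 0 ≤ D5) (hZT : kap * T ≤ Z)
    (h3 : g4 ≤ (1 + kap * (m * D5)) / Z) (hg : 0 ≤ g4) (he : eta ≤ 1) :
    (1 + eta) * g4 ≤ 2 * (20 * m / (lam ^ 2 * sg * T) + m * D5 / T) := by
  have hkap0 : 0 < kap := by rw [hkap]; positivity
  have h4 : (1 + kap * (m * D5)) / Z ≤ (1 + kap * (m * D5)) / (kap * T) := by
    refine div_le_div_of_nonneg_left ?_ (by positivity) hZT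
    positivity
  have h5 : (1 + kap * (m * D5)) / (kap * T) = 20 * m / (lam ^ 2 * sg * T) + m * D5 / T := by
    rw [hkap]
    field_simp
  rw [h5] at h4
  have h6 : (1 + eta) * g4 ≤ 2 * g4 := mul_le_mul_of_nonneg_right (by linarith) hg
  linarith

lemma gam_facts (hseq : St_SEQ) (lam : ℝ) (h1 : 1 / 20 ≤ lam) (h2 : lam ≤ 1 / 16) (m : ℕ)
    (hm : 8 ≤ m) (sg : ℝ) (hs0 : 0 < sg) (hs1 : sg ≤ 1) :
    ∃ (γ : ℕ → ℝ) (c eta : ℝ), 0 ≤ eta ∧ eta ≤ 1 ∧ 0 ≤ c ∧ γ 0 = 1 ∧ (∀ k, 0 ≤ γ k) ∧
      (∀ k, γ (k + 1) ≤ γ k) ∧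
      (∀ k, 1 ≤ k → k ≤ m →
        (k : ℝ) * (γ (k - 1) - γ k) - lam * k * ((m : ℝ) - k) * (γ k - γ (k + 1)) = c) ∧
      (∀ k, 1 ≤ k → k ≤ m → c + eta * γ (k - 1) ≤ lam * sg * γ k / 2) ∧
      (∀ k, 1 ≤ k → (1 + eta) * c ≤ lam * k * eta * γ (k + 1)) ∧
      (1 + eta) * γ 4 ≤ 2 * (20 * m / (lam ^ 2 * sg * TT lam m) +
        m * del lam m 5 / TT lam m) := by
  have hl0 : (0 : ℝ) < lam := by linarith
  obtain ⟨hrec, hDm, hpos, hanti, hT1, -, -, -, -, -, -⟩ := hseq.1 lam hl0.le m (by omega)
  set D : ℕ → ℝ := fun j => del lam m j with hD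
  have hmR : (8 : ℝ) ≤ m := by exact_mod_cast hm
  have hm0 : (0 : ℝ) < m := by linarith
  set kap : ℝ := lam ^ 2 * sg / (20 * m) with hkap
  set eta : ℝ := lam * sg / (10 * m) with heta
  have hkap0 : 0 < kap := by positivity
  have heta0 : 0 < eta := by positivity
  have hle : lam * eta = 2 * kap := by
    rw [hkap, heta]; field_simp; norm_num
  have heta1 : eta ≤ 1 := by
    rw [heta, div_le_one (by positivity)]
    nlinarith
  have hkap1 : kap ≤ 1 := by
    have : kap = lam * eta / 2 := by rw [hle]; ring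
    rw [this]; nlinarith
  clear_value kap eta
  set Z : ℝ := 1 + kap * ∑ j ∈ Finset.Ioc 0 m, D j with hZ
  clear_value Z
  have hsum0 : ∀ k, 0 ≤ ∑ j ∈ Finset.Ioc k m, D j := fun k => by
    refine Finset.sum_nonneg fun j hj => ?_
    rw [Finset.mem_Ioc] at hj
    exact (hpos j (by omega) hj.2).le
  have hZ1 : 1 ≤ Z := by
    have := mul_nonneg hkap0.le (hsum0 0)
    rw [hZ]; linarith
  have hZ0 : 0 < Z := by linarith
  have hZT : kap * TT lam m ≤ Z := by
    have h3 : D 1 ≤ ∑ j ∈ Finset.Ioc 0 m, D j := by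
      refine Finset.single_le_sum (f := D) (fun j hj => ?_)
        (Finset.mem_Ioc.2 ⟨by omega, by omega⟩)
      rw [Finset.mem_Ioc] at hj
      exact (hpos j (by omega) hj.2).le
    have h4 := mul_le_mul_of_nonneg_left h3 hkap0.le
    have h5 : D 1 = TT lam m := rfl
    rw [h5] at h4
    rw [hZ]; linarith
  set γ : ℕ → ℝ := fun k => (1 + kap * ∑ j ∈ Finset.Ioc k m, D j) / Z with hγ
  set c : ℝ := kap / Z with hc
  clear_value γ c
  have hc0 : 0 ≤ c := by rw [hc]; exact div_nonneg hkap0.le hZ0.le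
  have hg : ∀ k, 1 / Z ≤ γ k := fun k => by
    simp only [hγ]
    refine div_le_div_of_nonneg_right ?_ hZ0.le
    have := mul_nonneg hkap0.le (hsum0 k)
    linarith
  have hgpos : (0 : ℝ) < 1 / Z := one_div_pos.2 hZ0
  have hγ0 : ∀ k, 0 < γ k := fun k => lt_of_lt_of_le hgpos (hg k)
  have hcg : c = kap * (1 / Z) := by rw [hc]; ring
  -- the differences
  have hstep : ∀ k, k < m → γ k - γ (k + 1) = c * D (k + 1) := by
    intro k hk
    have h3 : ∑ j ∈ Finset.Ioc k m, D j = D (k + 1) + ∑ j ∈ Finset.Ioc (k + 1) m, D j := by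
      have h4 : Finset.Ioc k m = insert (k + 1) (Finset.Ioc (k + 1) m) := by
        ext j
        simp only [Finset.mem_Ioc, Finset.mem_insert]
        omega
      rw [h4, Finset.sum_insert (by simp)]
    simp only [hγ, hc]
    rw [h3]
    field_simp
    ring
  have hstep' : ∀ k, m ≤ k → γ k = γ (k + 1) := by
    intro k hk
    simp only [hγ]
    rw [Finset.Ioc_eq_empty (by omega), Finset.Ioc_eq_empty (by omega)]
  have hmono : ∀ k, γ (k + 1) ≤ γ k := by
    intro k
    rcases lt_or_ge k m with hk | hk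
    · have h3 := hstep k hk
      have h4 := mul_nonneg hc0 (hpos (k + 1) (by omega) hk).le
      simp only [hD] at h3
      linarith
    · exact (hstep' k hk).ge
  refine ⟨γ, c, eta, heta0.le, heta1, hc0, ?_, fun k => (hγ0 k).le, hmono, ?_, ?_, ?_, ?_⟩
  · simp only [hγ]
    rw [← hZ]
    exact div_self hZ0.ne'
  · intro k hk1 hkm
    obtain ⟨j, rfl⟩ : ∃ j, k = j + 1 := ⟨k - 1, by omega⟩
    have h3 := hstep j (by omega)
    rw [Nat.add_sub_cancel, h3]
    have hk0 : (0 : ℝ) < ((j + 1 : ℕ) : ℝ) := by positivity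
    rcases Nat.lt_or_ge (j + 1) m with hlt | hge
    · rw [hstep (j + 1) hlt]
      have h4 := hrec (j + 1) (by omega) hlt
      simp only [hD]
      rw [h4]
      field_simp
      ring
    · have : j + 1 = m := by omega
      rw [this]
      simp only [hD]
      rw [hDm]
      field_simp
      ring
  · intro k hk1 hkm
    obtain ⟨j, rfl⟩ : ∃ j, k = j + 1 := ⟨k - 1, by omega⟩
    have h3 := hstep j (by omega)
    rw [Nat.add_sub_cancel]
    have hgk : c ≤ kap * γ (j + 1) := by
      rw [hcg]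
      exact mul_le_mul_of_nonneg_left (hg _) hkap0.le
    have hck : c ≤ γ (j + 1) := hgk.trans (by nlinarith [hγ0 (j + 1)])
    -- (a)
    have ha : γ j ≤ (2 + lam * m) * γ (j + 1) := by
      have h5 : γ j = γ (j + 1) + c * D (j + 1) := by linarith
      rw [h5]
      have h6 : c * D (j + 1) ≤ (1 + lam * m) * γ (j + 1) := by
        rcases Nat.lt_or_ge (j + 1) m with hlt | hge
        · have h4 := hrec (j + 1) (by omega) hlt
          have h7 := hstep (j + 1) hlt
          have h8 : c * D (j + 1 + 1) ≤ γ (j + 1) := by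
            have := (hγ0 (j + 1 + 1)).le
            linarith
          have h9 : c * D (j + 1) = c * (1 / ((j + 1 : ℕ) : ℝ)) +
              lam * ((m : ℝ) - (j + 1 : ℕ)) * (c * D (j + 1 + 1)) := by
            simp only [hD]
            rw [h4]; ring
          have h10 : c * (1 / ((j + 1 : ℕ) : ℝ)) ≤ c * 1 := by
            refine mul_le_mul_of_nonneg_left ?_ hc0
            rw [div_le_one (by positivity)]
            exact_mod_cast Nat.succ_le_succ (Nat.zero_le j)
          have h11 : lam * ((m : ℝ) - (j + 1 : ℕ)) * (c * D (j + 1 + 1)) ≤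
              lam * m * γ (j + 1) := by
            have hjm : ((j + 1 : ℕ) : ℝ) ≤ m := by exact_mod_cast hlt.le
            have hj0 : (0 : ℝ) ≤ ((j + 1 : ℕ) : ℝ) := by positivity
            have hD2 : 0 ≤ c * D (j + 1 + 1) := mul_nonneg hc0 (hpos _ (by omega) hlt).le
            refine mul_le_mul ?_ h8 hD2 (by positivity)
            refine mul_le_mul_of_nonneg_left ?_ hl0.le
            linarith
          rw [h9]
          linarith
        · have hjm : j + 1 = m := by omega
          have h4 : D (j + 1) = 1 / (m : ℝ) := by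
            rw [hjm]; exact hDm
          rw [h4]
          have h5 : (1 : ℝ) / m ≤ 1 := by rw [div_le_one hm0]; linarith
          have h6 : c * (1 / (m : ℝ)) ≤ c * 1 := mul_le_mul_of_nonneg_left h5 hc0
          have h7 : 0 ≤ lam * m * γ (j + 1) := by
            have := (hγ0 (j + 1)).le
            positivity
          linarith
      linarith
    have h12 : c + eta * γ j ≤ (kap + eta * (2 + lam * m)) * γ (j + 1) := by
      have := mul_le_mul_of_nonneg_left ha heta0.le
      linarith
    refine h12.trans ?_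
    have h13 : kap + eta * (2 + lam * m) ≤ lam * sg / 2 := by
      have h14 : kap = lam * eta / 2 := by rw [hle]; ring
      have h15 : lam * sg = 10 * m * eta := by rw [heta]; field_simp
      rw [h14, h15]
      have : lam / 2 + (2 + lam * m) ≤ 5 * m := by nlinarith
      nlinarith
    have := mul_le_mul_of_nonneg_right h13 (hγ0 (j + 1)).le
    linarith
  · intro k hk1
    have hk : (1 : ℝ) ≤ k := by exact_mod_cast hk1
    have h3 : (1 + eta) * c ≤ 2 * kap * (1 / Z) := by
      rw [hcg]
      have : 0 ≤ kap * (1 / Z) := by positivity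
      nlinarith
    have h4 : 2 * kap * (1 / Z) ≤ 2 * kap * γ (k + 1) :=
      mul_le_mul_of_nonneg_left (hg _) (by positivity)
    have h5 : lam * k * eta * γ (k + 1) = k * (2 * kap * γ (k + 1)) := by
      rw [← hle]; ring
    rw [h5]
    have h6 : 0 ≤ 2 * kap * γ (k + 1) := by
      have := (hγ0 (k + 1)).le
      positivity
    nlinarith
  · have hT0 : 0 < TT lam m := by linarith
    have hanti' : ∀ i : ℕ, 5 + i ≤ m → D (5 + i) ≤ D 5 := by
      intro i
      induction i with
      | zero => intro _; exact le_refl _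
      | succ i ih =>
        intro him
        exact (hanti (5 + i) (by omega) (by omega)).trans (ih (by omega))
    have hsum : ∑ j ∈ Finset.Ioc 4 m, D j ≤ m * D 5 := by
      calc ∑ j ∈ Finset.Ioc 4 m, D j ≤ ∑ _j ∈ Finset.Ioc 4 m, D 5 := by
            refine Finset.sum_le_sum fun j hj => ?_
            rw [Finset.mem_Ioc] at hj
            have h9 := hanti' (j - 5) (by omega)
            rwa [show 5 + (j - 5) = j by omega] at h9
        _ = ((m - 4 : ℕ) : ℝ) * D 5 := by simp
        _ ≤ m * D 5 := by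
            refine mul_le_mul_of_nonneg_right ?_ (hpos 5 (by omega) (by omega)).le
            exact_mod_cast Nat.sub_le _ _
    have h3 : γ 4 ≤ (1 + kap * (m * D 5)) / Z := by
      simp only [hγ]
      refine div_le_div_of_nonneg_right ?_ hZ0.le
      have := mul_le_mul_of_nonneg_left hsum hkap0.le
      linarith
    exact fin_bound kap Z (TT lam m) m (del lam m 5) lam sg (γ 4) eta hT0 hm0 hl0 hs0 hkap
      (hpos 5 (by omega) (by omega)).le hZT h3 (hγ0 4).le heta1

end Pool.Agent.W11.CP
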