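import Mathlib
import Pool.Agent.W845.CP.Base2
import Pool.Agent.W11.CP.HNum

set_option autoImplicit false
set_option linter.style.haveILetI false
set_option linter.unusedSectionVars false
open scoped BigOperators

/-!
Project CP, part HLOW: lower bound for a hub.
-/

namespace Pool.Agent.W11.CP

open Pool.Agent.W845.CP

section

variable {V : Type} [DecidableEq V]

/-- Generator of a product of a function of the hub and a function of the outside. -/
lemma gen_prod (nb : V → Finset V) (lam : ℝ) (K W : Finset V) (v w0 : V) (hKW : Disjoint K W)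
    (hv : v ∈ K) (hw : w0 ∈ W) (hK : ∀ x ∈ K, x ≠ v → nb x = K.erase x)
    (hnv : nb v = insert w0 (K.erase v)) (hW : ∀ w ∈ W, w ≠ w0 → nb w ⊆ W)
    (hw0 : nb w0 ⊆ insert v W) (hvw : v ∈ nb w0) (p q : Finset V → ℝ) (A : Finset V)
    (hA : A ⊆ K ∪ W) :
    gen nb lam (fun B => p (B ∩ K) * q (B ∩ W)) A =
      q (A ∩ W) * (gen (fun x => K.erase x) lam p (A ∩ K) +
        (if w0 ∈ A then lam * (p (insert v (A ∩ K)) - p (A ∩ K)) else 0)) +
      p (A ∩ K) * (gen (rest nb W) lam q (A ∩ W) +
        (if v ∈ A then lam * (q (insert w0 (A ∩ W)) - q (A ∩ W)) else 0)) := by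
  have hKn : ∀ x ∈ K, x ∉ W := fun x hx hx' => Finset.disjoint_left.1 hKW hx hx'
  have hWn : ∀ x ∈ W, x ∉ K := fun x hx hx' => Finset.disjoint_left.1 hKW hx' hx
  have hdisj : Disjoint (A ∩ K) (A ∩ W) :=
    Finset.disjoint_of_subset_left Finset.inter_subset_right
      (Finset.disjoint_of_subset_right Finset.inter_subset_right hKW)
  have hAu : A = (A ∩ K) ∪ (A ∩ W) := by
    rw [← Finset.inter_union_distrib_left]
    exact (Finset.inter_eq_left.2 hA).symm
  have hsum : ∀ φ : V → ℝ, ∑ x ∈ A, φ x = ∑ x ∈ A ∩ K, φ x + ∑ x ∈ A ∩ W, φ x := by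
    intro φ
    conv_lhs => rw [hAu]
    exact Finset.sum_union hdisj
  -- increments
  set F : Finset V → ℝ := fun B => p (B ∩ K) * q (B ∩ W) with hF
  have e1 : ∀ x ∈ A ∩ K, F (A.erase x) - F A =
      (p ((A ∩ K).erase x) - p (A ∩ K)) * q (A ∩ W) := by
    intro x hx
    rw [Finset.mem_inter] at hx
    have h1 : A.erase x ∩ K = (A ∩ K).erase x := by
      ext y; simp only [Finset.mem_inter, Finset.mem_erase]; tauto
    have h2 : A.erase x ∩ W = A ∩ W := by
      ext y
      simp only [Finset.mem_inter, Finset.mem_erase]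
      constructor
      · tauto
      · rintro ⟨h3, h4⟩
        refine ⟨⟨?_, h3⟩, h4⟩
        rintro rfl
        exact hKn _ hx.2 h4
    simp only [hF]
    rw [h1, h2]; ring
  have e2 : ∀ x ∈ A ∩ W, F (A.erase x) - F A =
      p (A ∩ K) * (q ((A ∩ W).erase x) - q (A ∩ W)) := by
    intro x hx
    rw [Finset.mem_inter] at hx
    have h1 : A.erase x ∩ W = (A ∩ W).erase x := by
      ext y; simp only [Finset.mem_inter, Finset.mem_erase]; tauto
    have h2 : A.erase x ∩ K = A ∩ K := by
      ext y
      simp only [Finset.mem_inter, Finset.mem_erase]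
      constructor
      · tauto
      · rintro ⟨h3, h4⟩
        refine ⟨⟨?_, h3⟩, h4⟩
        rintro rfl
        exact hWn _ hx.2 h4
    simp only [hF]
    rw [h1, h2]; ring
  have e3 : ∀ y ∈ K, F (insert y A) - F A =
      (p (insert y (A ∩ K)) - p (A ∩ K)) * q (A ∩ W) := by
    intro y hy
    simp only [hF]
    rw [Finset.insert_inter_of_mem hy, Finset.insert_inter_of_notMem (hKn y hy)]; ring
  have e4 : ∀ y ∈ W, F (insert y A) - F A =
      p (A ∩ K) * (q (insert y (A ∩ W)) - q (A ∩ W)) := by
    intro y hy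
    simp only [hF]
    rw [Finset.insert_inter_of_mem hy, Finset.insert_inter_of_notMem (hWn y hy)]; ring
  have i1 : ∑ x ∈ A ∩ K, ∑ y ∈ nb x, (F (insert y A) - F A) =
      (∑ x ∈ A ∩ K, ∑ y ∈ K.erase x, (p (insert y (A ∩ K)) - p (A ∩ K))) * q (A ∩ W) +
      (if v ∈ A then p (A ∩ K) * (q (insert w0 (A ∩ W)) - q (A ∩ W)) else 0) := by
    have h1 : ∀ x ∈ A ∩ K, ∑ y ∈ nb x, (F (insert y A) - F A) =
        (∑ y ∈ K.erase x, (p (insert y (A ∩ K)) - p (A ∩ K))) * q (A ∩ W) +
        (if x = v then p (A ∩ K) * (q (insert w0 (A ∩ W)) - q (A ∩ W)) else 0) := by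
      intro x hx
      rw [Finset.mem_inter] at hx
      have h2 : ∑ y ∈ K.erase x, (F (insert y A) - F A) =
          (∑ y ∈ K.erase x, (p (insert y (A ∩ K)) - p (A ∩ K))) * q (A ∩ W) := by
        rw [Finset.sum_mul]
        exact Finset.sum_congr rfl fun y hy => e3 y (Finset.mem_of_mem_erase hy)
      by_cases hxv : x = v
      · subst hxv
        rw [if_pos rfl, hnv, Finset.sum_insert (by
          intro h; exact hWn _ hw (Finset.mem_of_mem_erase h)), h2, e4 w0 hw]
        ring
      · rw [if_neg hxv, hK x hx.2 hxv, h2, add_zero]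
    rw [Finset.sum_congr rfl h1, Finset.sum_add_distrib, ← Finset.sum_mul,
      Finset.sum_ite_eq' (A ∩ K) v]
    congr 1
    simp [hv]
  have i2 : ∑ x ∈ A ∩ W, ∑ y ∈ nb x, (F (insert y A) - F A) =
      p (A ∩ K) * (∑ x ∈ A ∩ W, ∑ y ∈ rest nb W x, (q (insert y (A ∩ W)) - q (A ∩ W))) +
      (if w0 ∈ A then (p (insert v (A ∩ K)) - p (A ∩ K)) * q (A ∩ W) else 0) := by
    have h1 : ∀ x ∈ A ∩ W, ∑ y ∈ nb x, (F (insert y A) - F A) =
        p (A ∩ K) * (∑ y ∈ rest nb W x, (q (insert y (A ∩ W)) - q (A ∩ W))) +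
        (if x = w0 then (p (insert v (A ∩ K)) - p (A ∩ K)) * q (A ∩ W) else 0) := by
      intro x hx
      rw [Finset.mem_inter] at hx
      have h2 : ∑ y ∈ rest nb W x, (F (insert y A) - F A) =
          p (A ∩ K) * (∑ y ∈ rest nb W x, (q (insert y (A ∩ W)) - q (A ∩ W))) := by
        rw [Finset.mul_sum]
        refine Finset.sum_congr rfl fun y hy => e4 y ?_
        exact (Finset.mem_inter.1 hy).2
      by_cases hxv : x = w0
      · subst hxv
        have h3 : nb x = insert v (rest nb W x) := by
          ext y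
          simp only [rest, Finset.mem_insert, Finset.mem_inter]
          constructor
          · intro hy
            rcases Finset.mem_insert.1 (hw0 hy) with h | h
            · exact Or.inl h
            · exact Or.inr ⟨hy, h⟩
          · rintro (h | h)
            · rw [h]; exact hvw
            · exact h.1
        rw [if_pos rfl, h3, Finset.sum_insert (by
          intro h; exact hKn _ hv (Finset.mem_inter.1 h).2), h2, e3 v hv]
        ring
      · have h3 : nb x = rest nb W x := by
          unfold rest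
          exact (Finset.inter_eq_left.2 (hW x hx.2 hxv)).symm
        rw [if_neg hxv, add_zero, ← h2, ← h3]
    rw [Finset.sum_congr rfl h1, Finset.sum_add_distrib, ← Finset.mul_sum,
      Finset.sum_ite_eq' (A ∩ W) w0]
    congr 1
    simp [hw]
  unfold gen
  rw [hsum, hsum, Finset.sum_congr rfl e1, Finset.sum_congr rfl e2, i1, i2, ← Finset.sum_mul,
    ← Finset.mul_sum]
  split_ifs <;> ring

/-- The function of the hub. -/
noncomputable def pf (γ : ℕ → ℝ) (eta : ℝ) (v : V) (B : Finset V) : ℝ :=
  if v ∈ B then γ B.card else (1 + eta) * γ B.card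

lemma gen_clq_notMem (lam : ℝ) (K : Finset V) (v : V) (hv : v ∈ K) (γ : ℕ → ℝ) (eta : ℝ)
    (B : Finset V) (hB : B ⊆ K) (hvB : v ∉ B) :
    gen (fun x => K.erase x) lam (pf γ eta v) B =
      (1 + eta) * ((B.card : ℝ) * (γ (B.card - 1) - γ B.card) -
        lam * B.card * ((K.card : ℝ) - B.card) * (γ B.card - γ (B.card + 1))) -
      lam * B.card * eta * γ (B.card + 1) := by
  rw [gen_def']
  have h1 : ∀ x ∈ B, pf γ eta v (B.erase x) - pf γ eta v B =
      (1 + eta) * (γ (B.card - 1) - γ B.card) := by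
    intro x hx
    unfold pf
    rw [if_neg hvB, if_neg (fun h => hvB (Finset.mem_of_mem_erase h)),
      Finset.card_erase_of_mem hx]
    ring
  have hcard : ((K \ B).card : ℝ) = (K.card : ℝ) - B.card := by
    rw [Finset.card_sdiff_of_subset hB, Nat.cast_sub (Finset.card_le_card hB)]
  have h2 : ∀ x ∈ B, ∑ y ∈ K.erase x \ B, (pf γ eta v (insert y B) - pf γ eta v B) =
      ((K.card : ℝ) - B.card) * ((1 + eta) * (γ (B.card + 1) - γ B.card)) -
        eta * γ (B.card + 1) := by
    intro x hx
    have h3 : K.erase x \ B = K \ B := by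
      ext y
      simp only [Finset.mem_sdiff, Finset.mem_erase]
      constructor
      · tauto
      · rintro ⟨h3, h4⟩
        refine ⟨⟨?_, h3⟩, h4⟩
        rintro rfl; exact h4 hx
    rw [h3]
    have h4 : ∀ y ∈ K \ B, pf γ eta v (insert y B) - pf γ eta v B =
        (1 + eta) * (γ (B.card + 1) - γ B.card) - (if y = v then eta * γ (B.card + 1) else 0) := by
      intro y hy
      rw [Finset.mem_sdiff] at hy
      unfold pf
      rw [if_neg hvB, Finset.card_insert_of_notMem hy.2]
      by_cases hyv : y = v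
      · rw [if_pos hyv, if_pos (by rw [hyv]; exact Finset.mem_insert_self _ _)]; ring
      · rw [if_neg hyv, if_neg (by
          intro h
          rcases Finset.mem_insert.1 h with h | h
          · exact hyv h.symm
          · exact hvB h)]
        ring
    rw [Finset.sum_congr rfl h4, Finset.sum_sub_distrib, Finset.sum_ite_eq' (K \ B) v,
      if_pos (Finset.mem_sdiff.2 ⟨hv, hvB⟩), Finset.sum_const, nsmul_eq_mul, hcard]
  rw [Finset.sum_congr rfl h1, Finset.sum_congr rfl h2]
  simp only [Finset.sum_const, nsmul_eq_mul]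
  ring

lemma gen_clq_mem (lam : ℝ) (K : Finset V) (v : V) (γ : ℕ → ℝ) (eta : ℝ)
    (B : Finset V) (hB : B ⊆ K) (hvB : v ∈ B) :
    gen (fun x => K.erase x) lam (pf γ eta v) B =
      ((B.card : ℝ) * (γ (B.card - 1) - γ B.card) -
        lam * B.card * ((K.card : ℝ) - B.card) * (γ B.card - γ (B.card + 1))) +
      eta * γ (B.card - 1) := by
  rw [gen_def']
  have h1 : ∀ x ∈ B, pf γ eta v (B.erase x) - pf γ eta v B =
      (γ (B.card - 1) - γ B.card) + (if x = v then eta * γ (B.card - 1) else 0) := by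
    intro x hx
    unfold pf
    rw [if_pos hvB, Finset.card_erase_of_mem hx]
    by_cases hxv : x = v
    · rw [if_pos hxv, if_neg (by rw [hxv]; exact Finset.notMem_erase _ _)]; ring
    · rw [if_neg hxv, if_pos (Finset.mem_erase.2 ⟨fun h => hxv h.symm, hvB⟩)]; ring
  have hcard : ((K \ B).card : ℝ) = (K.card : ℝ) - B.card := by
    rw [Finset.card_sdiff_of_subset hB, Nat.cast_sub (Finset.card_le_card hB)]
  have h2 : ∀ x ∈ B, ∑ y ∈ K.erase x \ B, (pf γ eta v (insert y B) - pf γ eta v B) =
      ((K.card : ℝ) - B.card) * (γ (B.card + 1) - γ B.card) := by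
    intro x hx
    have h3 : K.erase x \ B = K \ B := by
      ext y
      simp only [Finset.mem_sdiff, Finset.mem_erase]
      constructor
      · tauto
      · rintro ⟨h3, h4⟩
        refine ⟨⟨?_, h3⟩, h4⟩
        rintro rfl; exact h4 hx
    rw [h3]
    have h4 : ∀ y ∈ K \ B, pf γ eta v (insert y B) - pf γ eta v B =
        γ (B.card + 1) - γ B.card := by
      intro y hy
      rw [Finset.mem_sdiff] at hy
      unfold pf
      rw [if_pos hvB, Finset.card_insert_of_notMem hy.2, if_pos (Finset.mem_insert_of_mem hvB)]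
    rw [Finset.sum_congr rfl h4, Finset.sum_const, nsmul_eq_mul, hcard]
  rw [Finset.sum_congr rfl h1, Finset.sum_congr rfl h2, Finset.sum_add_distrib,
    Finset.sum_ite_eq' B v, if_pos hvB]
  simp only [Finset.sum_const, nsmul_eq_mul]
  ring

/-- The key superharmonic estimate. -/
lemma key (nb : V → Finset V) (lam : ℝ) (hl0 : 0 < lam) (hl1 : lam ≤ 1 / 16)
    (K W : Finset V) (v w0 : V) (hKW : Disjoint K W)
    (hv : v ∈ K) (hw : w0 ∈ W) (hK : ∀ x ∈ K, x ≠ v → nb x = K.erase x)
    (hnv : nb v = insert w0 (K.erase v)) (hW : ∀ w ∈ W, w ≠ w0 → nb w ⊆ W)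
    (hw0 : nb w0 ⊆ insert v W) (hvw : v ∈ nb w0)
    (T : Finset V → Prop) (hT : ∀ A B, A ⊆ B → T A → T B)
    (s : Finset V → ℝ) (hs : IsHit (rest nb W) lam W T s) (hs0 : 0 < s {w0})
    (f : Finset V → ℝ) (hf0 : f ∅ = 0) (hfn : ∀ A, A ⊆ W → 0 ≤ f A)
    (hf4 : ∀ A, A ⊆ W → f (insert w0 A) ≤ f A + 4)
    (hfd : ∀ A, A ⊆ W → A ≠ ∅ → ¬ T A →
      gen (rest nb W) lam f A ≤ -(f A / 2 + 4 * lam + 1 / 2))
    (γ : ℕ → ℝ) (c eta : ℝ) (he0 : 0 ≤ eta) (hγ0 : ∀ k, 0 ≤ γ k)
    (hγm : ∀ k, γ (k + 1) ≤ γ k)
    (hc : ∀ k : ℕ, 1 ≤ k → k ≤ K.card → (k : ℝ) * (γ (k - 1) - γ k) -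
      lam * k * ((K.card : ℝ) - k) * (γ k - γ (k + 1)) = c)
    (hb : ∀ k : ℕ, 1 ≤ k → k ≤ K.card → c + eta * γ (k - 1) ≤ lam * s {w0} * γ k / 2)
    (hd : ∀ k : ℕ, 1 ≤ k → (1 + eta) * c ≤ lam * k * eta * γ (k + 1))
    (A : Finset V) (hA : A ⊆ K ∪ W) (hTA : ¬ T A) :
    gen nb lam (fun B => pf γ eta v (B ∩ K) *
      (1 - s (B ∩ W) + lam * s {w0} * f (B ∩ W))) A ≤ 0 := by
  set sg : ℝ := s {w0} with hsg
  have hsg1 : sg ≤ 1 := hs.le_one _ (by simpa using hw)
  set q : Finset V → ℝ := fun C => 1 - s C + lam * sg * f C with hq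
  have hkp0 : 0 < lam * sg := mul_pos hl0 hs0
  have hkp1 : lam * sg ≤ 1 := by nlinarith
  have hAW : A ∩ W ⊆ W := Finset.inter_subset_right
  have hAK : A ∩ K ⊆ K := Finset.inter_subset_right
  have hTW : ¬ T (A ∩ W) := fun h => hTA (hT _ _ Finset.inter_subset_left h)
  have hqn : 0 ≤ q (A ∩ W) := by
    have h1 := hs.le_one _ hAW
    have h2 := mul_nonneg hkp0.le (hfn _ hAW)
    simp only [hq]
    linarith
  have hpn : 0 ≤ pf γ eta v (A ∩ K) := by
    unfold pf
    split_ifs
    · exact hγ0 _
    · exact mul_nonneg (by linarith) (hγ0 _)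
  have hgq : gen (rest nb W) lam q (A ∩ W) = lam * sg * gen (rest nb W) lam f (A ∩ W) := by
    have h1 : q = fun C => (fun C => 1 - s C) C + (fun C => lam * sg * f C) C := rfl
    rw [h1, gen_add, gen_smul]
    have h2 : gen (rest nb W) lam (fun C => 1 - s C) (A ∩ W) = 0 := by
      rw [gen_sub (rest nb W) lam (fun _ => 1) s, gen_const, hs.harm _ hAW hTW, sub_zero]
    rw [h2, zero_add]
  have hprod := gen_prod nb lam K W v w0 hKW hv hw hK hnv hW hw0 hvw (pf γ eta v) q A hA
  rw [show (fun B => pf γ eta v (B ∩ K) * (1 - s (B ∩ W) + lam * sg * f (B ∩ W))) =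
    fun B => pf γ eta v (B ∩ K) * q (B ∩ W) from rfl, hprod]
  by_cases hvA : v ∈ A
  · have hvB : v ∈ A ∩ K := Finset.mem_inter.2 ⟨hvA, hv⟩
    have hk1 : 1 ≤ (A ∩ K).card := Finset.card_pos.2 ⟨v, hvB⟩
    have hkm : (A ∩ K).card ≤ K.card := Finset.card_le_card hAK
    rw [gen_clq_mem lam K v γ eta (A ∩ K) hAK hvB, hc _ hk1 hkm, if_pos hvA,
      Finset.insert_eq_self.2 hvB, sub_self, mul_zero, ite_self, add_zero, hgq]
    have hpe : pf γ eta v (A ∩ K) = γ (A ∩ K).card := by unfold pf; rw [if_pos hvB]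
    rw [hpe]
    have hb' := hb _ hk1 hkm
    set g : ℝ := γ (A ∩ K).card with hg
    have hg0 : 0 ≤ g := hγ0 _
    set X : ℝ := c + eta * γ ((A ∩ K).card - 1) with hX
    rcases Finset.eq_empty_or_nonempty (A ∩ W) with hE | hN
    · rw [hE]
      have h1 : q ∅ = 1 := by simp only [hq]; rw [hs.empty, hf0]; ring
      have h2 : gen (rest nb W) lam f ∅ = 0 := by simp [gen]
      have h3 : q (insert w0 ∅) - q ∅ ≤ -sg + 4 * (lam * sg) := by
        have h4 := hf4 ∅ (Finset.empty_subset _)
        rw [hf0] at h4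
        have h5 := mul_le_mul_of_nonneg_left h4 hkp0.le
        rw [h1]
        simp only [hq]
        have h6 : s (insert w0 ∅) = sg := rfl
        rw [h6]
        linarith
      rw [h1, h2, mul_zero, zero_add, one_mul]
      have h4 := mul_le_mul_of_nonneg_left h3 hl0.le
      have h5 := mul_le_mul_of_nonneg_left h4 hg0
      have h6 : X + g * (lam * (-sg + 4 * (lam * sg))) ≤ 0 := by
        have h7 : 0 ≤ g * (lam * sg) := mul_nonneg hg0 hkp0.le
        nlinarith
      rw [h1] at h5
      linarith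
    · have h1 := hfd _ hAW hN.ne_empty hTW
      have h2 := mul_le_mul_of_nonneg_left h1 hkp0.le
      have h3 : q (insert w0 (A ∩ W)) - q (A ∩ W) ≤ 4 * (lam * sg) := by
        have h4 := hf4 _ hAW
        have h5 := mul_le_mul_of_nonneg_left h4 hkp0.le
        have h6 := hs.mono (A ∩ W) (insert w0 (A ∩ W)) (Finset.subset_insert _ _)
          (Finset.insert_subset hw hAW)
        simp only [hq]
        linarith
      have h4 := mul_le_mul_of_nonneg_left h3 hl0.le
      have hf' := hfn _ hAW
      have hs' := hs.nonneg _ hAW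
      set fA : ℝ := f (A ∩ W) with hfA
      have h5 : q (A ∩ W) ≤ 1 + lam * sg * fA := by simp only [hq]; linarith
      have h6 : q (A ∩ W) * X ≤ (1 + lam * sg * fA) * (lam * sg * g / 2) := by
        calc q (A ∩ W) * X ≤ q (A ∩ W) * (lam * sg * g / 2) :=
              mul_le_mul_of_nonneg_left hb' hqn
          _ ≤ (1 + lam * sg * fA) * (lam * sg * g / 2) :=
              mul_le_mul_of_nonneg_right h5 (by positivity)
      have h7 := mul_le_mul_of_nonneg_left (add_le_add h2 h4) hg0
      have h8 : (1 + lam * sg * fA) * (lam * sg * g / 2) +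
          g * (lam * sg * -(fA / 2 + 4 * lam + 1 / 2) + lam * (4 * (lam * sg))) =
          lam * sg * g * fA / 2 * (lam * sg - 1) := by ring
      have h9 : lam * sg * g * fA / 2 * (lam * sg - 1) ≤ 0 :=
        mul_nonpos_of_nonneg_of_nonpos (by positivity) (by linarith)
      linarith
  · have hvB : v ∉ A ∩ K := fun h => hvA (Finset.mem_inter.1 h).1
    rw [if_neg hvA, add_zero, hgq]
    have h1 : gen (fun x => K.erase x) lam (pf γ eta v) (A ∩ K) ≤ 0 := by
      rcases Finset.eq_empty_or_nonempty (A ∩ K) with hE | hN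
      · rw [hE]; simp [gen]
      · have hk1 : 1 ≤ (A ∩ K).card := Finset.card_pos.2 hN
        have hkm : (A ∩ K).card ≤ K.card := Finset.card_le_card hAK
        rw [gen_clq_notMem lam K v hv γ eta (A ∩ K) hAK hvB, hc _ hk1 hkm]
        have := hd _ hk1
        linarith
    have h2 : (if w0 ∈ A then lam * (pf γ eta v (insert v (A ∩ K)) - pf γ eta v (A ∩ K))
        else 0) ≤ 0 := by
      split_ifs
      · refine mul_nonpos_of_nonneg_of_nonpos hl0.le ?_
        unfold pf
        rw [if_pos (Finset.mem_insert_self _ _), if_neg hvB, Finset.card_insert_of_notMem hvB]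
        have h3 := hγm (A ∩ K).card
        have h4 := mul_nonneg he0 (hγ0 (A ∩ K).card)
        linarith
      · exact le_refl _
    have h3 : gen (rest nb W) lam f (A ∩ W) ≤ 0 := by
      rcases Finset.eq_empty_or_nonempty (A ∩ W) with hE | hN
      · rw [hE]; simp [gen]
      · have h4 := hfd _ hAW hN.ne_empty hTW
        have h5 := hfn _ hAW
        linarith
    have h4 : q (A ∩ W) * (gen (fun x => K.erase x) lam (pf γ eta v) (A ∩ K) +
        (if w0 ∈ A then lam * (pf γ eta v (insert v (A ∩ K)) - pf γ eta v (A ∩ K)) else 0)) ≤ 0 :=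
      mul_nonpos_of_nonneg_of_nonpos hqn (by linarith)
    have h5 : pf γ eta v (A ∩ K) * (lam * sg * gen (rest nb W) lam f (A ∩ W)) ≤ 0 :=
      mul_nonpos_of_nonneg_of_nonpos hpn (mul_nonpos_of_nonneg_of_nonpos hkp0.le h3)
    linarith

end

/-- Lower bound for a hub. -/
theorem hlow : St_SEQ → St_HLOW := by
  intro hseq V _ nb lam hl1 hl2 K W v w0 hK8 hKW hv hw hK hnv hW hw0 hvw T hT hTW hTe s hs hs0
    f hf0 hfn hf4 hfd u hu
  have hl0 : (0 : ℝ) < lam := by linarith
  have hKn : ∀ x ∈ K, x ∉ W := fun x hx hx' => Finset.disjoint_left.1 hKW hx hx'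
  have hclosed : ∀ x ∈ K ∪ W, nb x ⊆ K ∪ W := by
    intro x hx
    rcases Finset.mem_union.1 hx with hx | hx
    · by_cases hxv : x = v
      · rw [hxv, hnv]
        refine Finset.insert_subset (Finset.mem_union_right _ hw) ?_
        exact (Finset.erase_subset _ _).trans Finset.subset_union_left
      · rw [hK x hx hxv]
        exact (Finset.erase_subset _ _).trans Finset.subset_union_left
    · by_cases hxv : x = w0
      · rw [hxv]
        refine hw0.trans (Finset.insert_subset (Finset.mem_union_left _ hv) ?_)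
        exact Finset.subset_union_right
      · exact (hW x hx hxv).trans Finset.subset_union_right
  have hsg1 : s {w0} ≤ 1 := hs.le_one _ (by simpa using hw)
  constructor
  · obtain ⟨γ, c, eta, he0, he1, hc0, hγ00, hγ0, hγm, hc, hb, hd, hfin⟩ :=
      gam_facts hseq lam hl1 hl2 K.card hK8 (s {w0}) hs0 hsg1
    set φ : Finset V → ℝ := fun B => pf γ eta v (B ∩ K) *
      (1 - s (B ∩ W) + lam * s {w0} * f (B ∩ W)) with hφ
    have hφ0 : ∀ A, 0 ≤ φ A := by
      intro A
      have h1 := hs.le_one (A ∩ W) Finset.inter_subset_right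
      have h2 := mul_nonneg (mul_nonneg hl0.le hs0.le) (hfn (A ∩ W) Finset.inter_subset_right)
      refine mul_nonneg ?_ (by linarith)
      unfold pf
      split_ifs
      · exact hγ0 _
      · exact mul_nonneg (by linarith) (hγ0 _)
    have hmain : ∀ A, A ⊆ K ∪ W → 0 ≤ u A - (1 - φ A) := by
      refine mp V nb lam hl0.le (K ∪ W) hclosed (fun A => u A - (1 - φ A)) ?_ ?_
      · simp only [hφ]
        rw [hu.empty, Finset.empty_inter, Finset.empty_inter, hs.empty, hf0]
        unfold pf
        rw [if_neg (Finset.notMem_empty _), Finset.card_empty, hγ00]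
        linarith
      · intro A hA _
        by_cases hTA : T A
        · left
          rw [hu.one A hA hTA]
          have := hφ0 A
          linarith
        · right
          rw [gen_sub nb lam u (fun A => 1 - φ A), hu.harm A hA hTA,
            gen_sub nb lam (fun _ => 1) φ, gen_const]
          have := key nb lam hl0 hl2 K W v w0 hKW hv hw hK hnv hW hw0 hvw T hT s hs hs0 f hf0
            hfn hf4 hfd γ c eta he0 hγ0 hγm hc hb hd A hA hTA
          linarith
    intro A hA h4
    have h1 : A ∩ K ⊆ K ∪ W := Finset.inter_subset_right.trans Finset.subset_union_left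
    have h2 := hmain (A ∩ K) h1
    have h3 := hu.mono (A ∩ K) A Finset.inter_subset_left hA
    have h5 : φ (A ∩ K) ≤ (1 + eta) * γ 4 := by
      simp only [hφ]
      have h6 : A ∩ K ∩ W = ∅ := by
        ext x
        simp only [Finset.mem_inter, Finset.notMem_empty, iff_false]
        rintro ⟨⟨-, h7⟩, h8⟩
        exact hKn x h7 h8
      rw [h6, hs.empty, hf0, Finset.inter_assoc, Finset.inter_self]
      have h7 : pf γ eta v (A ∩ K) ≤ (1 + eta) * γ (A ∩ K).card := by
        unfold pf
        split_ifs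
        · have := mul_nonneg he0 (hγ0 (A ∩ K).card)
          linarith
        · exact le_refl _
      have h8 : γ (A ∩ K).card ≤ γ 4 := antitone_nat_of_succ_le hγm h4
      have h9 := mul_le_mul_of_nonneg_left h8 (by linarith : (0 : ℝ) ≤ 1 + eta)
      linarith
    linarith
  · -- the second bound
    have huW : ∀ B, B ⊆ W → s B ≤ u B := by
      have h1 : ∀ B, B ⊆ W → 0 ≤ u B - s B := by
        refine mp V (rest nb W) lam hl0.le W (fun x _ => Finset.inter_subset_right)
          (fun B => u B - s B) ?_ ?_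
        · rw [hu.empty, hs.empty, sub_zero]
        · intro B hB _
          have hB' : B ⊆ K ∪ W := hB.trans Finset.subset_union_right
          by_cases hTB : T B
          · left
            rw [hu.one B hB' hTB, hs.one B hB hTB, sub_self]
          · right
            rw [gen_sub, hs.harm B hB hTB, sub_zero]
            have h2 := hu.harm B hB' hTB
            rw [← h2]
            unfold gen
            refine add_le_add le_rfl (mul_le_mul_of_nonneg_left ?_ hl0.le)
            refine Finset.sum_le_sum fun x hx => ?_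
            refine Finset.sum_le_sum_of_subset_of_nonneg Finset.inter_subset_left ?_
            intro y hy _
            have := hu.mono B (insert y B) (Finset.subset_insert _ _)
              (Finset.insert_subset (hclosed x (hB' hx) hy) hB')
            linarith
      intro B hB
      have := h1 B hB
      linarith
    have hone : ∀ x ∈ K, ∀ y ∈ nb x, lam * u {y} ≤ (1 + lam) * u {x} := by
      intro x hx y hy
      have hxs : ({x} : Finset V) ⊆ K ∪ W := by
        simpa using Or.inl hx
      have hTx : ¬ T {x} := by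
        intro h
        have h2 := hTW _ h
        rw [Finset.singleton_inter_of_notMem (hKn x hx)] at h2
        exact hTe h2
      have h1 := use_lower nb lam hl0.le (K ∪ W) hclosed u hu.nonneg hu.mono {x} hxs
        (hu.harm _ hxs hTx) (fun _ => {y}) (by
          intro z hz
          rw [Finset.mem_singleton] at hz
          rw [hz]
          simpa using hy)
      simp only [Finset.sum_singleton, Finset.card_singleton, Nat.cast_one, mul_one] at h1
      have h2 : u {y} ≤ u (insert y {x}) := by
        refine hu.mono _ _ (by simp) ?_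
        exact Finset.insert_subset (hclosed x (Finset.mem_union_left _ hx) hy) hxs
      have h3 := mul_le_mul_of_nonneg_left h2 hl0.le
      linarith
    have hratio : ∀ a b : ℝ, 0 ≤ b → lam * b ≤ (1 + lam) * a → (1 / 21 : ℝ) * b ≤ a := by
      intro a b hb hab
      have h1 : 0 ≤ (21 * lam - (1 + lam)) * b := mul_nonneg (by linarith) hb
      have h2 : (1 + lam) * b ≤ 21 * ((1 + lam) * a) := by nlinarith
      have h3 : (1 + lam) * b ≤ (1 + lam) * (21 * a) := by linarith
      have h4 := le_of_mul_le_mul_left h3 (by linarith : (0 : ℝ) < 1 + lam)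
      linarith
    have hw0s : s {w0} ≤ u {w0} := huW _ (by simpa using hw)
    have hvu : (1 / 21 : ℝ) * s {w0} ≤ u {v} := by
      refine hratio _ _ hs0.le ?_
      have h1 := hone v hv w0 (by rw [hnv]; exact Finset.mem_insert_self _ _)
      have h2 := mul_le_mul_of_nonneg_left hw0s hl0.le
      linarith
    intro A hA hne
    obtain ⟨x, hx⟩ := hne
    rw [Finset.mem_inter] at hx
    have h1 : u {x} ≤ u A := hu.mono _ _ (by simpa using hx.1) hA
    have h2 : (1 / 21 : ℝ) ^ 2 * s {w0} ≤ u {x} := by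
      by_cases hxv : x = v
      · rw [hxv]
        have : (1 / 21 : ℝ) ^ 2 * s {w0} ≤ (1 / 21 : ℝ) * s {w0} := by
          refine mul_le_mul_of_nonneg_right (by norm_num) hs0.le
        linarith
      · have h3 := hone x hx.2 v (by
          rw [hK x hx.2 hxv]
          exact Finset.mem_erase.2 ⟨fun h => hxv h.symm, hv⟩)
        have h4 := hratio _ _ (by positivity) ((mul_le_mul_of_nonneg_left hvu hl0.le).trans h3)
        calc (1 / 21 : ℝ) ^ 2 * s {w0} = (1 / 21 : ℝ) * ((1 / 21 : ℝ) * s {w0}) := by ring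
          _ ≤ u {x} := h4
    linarith

end Pool.Agent.W11.CP
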